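import Mathlib
import Pool.Agent.W857.CC.Stm

/-!
# Project CC: cycles from the core, and the nearly bipartite case
-/

namespace Pool.Agent.W540.CC.NB6

open Finset
open scoped Classical
open Pool.Agent.W857.CC

/-- common neighbours, chosen injectively -/
lemma exists_x {n : ℕ} {G : SimpleGraph (Fin n)} {X Y : Finset (Fin n)} {u v : Fin n}
    (hn : 1000 ≤ n) (hC : Core G X Y u v) (F : Finset (Fin n)) (hF : #F ≤ 2) (s : ℕ)
    (hs : (s : ℝ) ≤ n / 5) (y y' : ℕ → Fin n) (hy : ∀ i < s, y i ∈ Y) (hy' : ∀ i < s, y' i ∈ Y) :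
    ∃ x : ℕ → Fin n, (∀ i < s, x i ∈ X ∧ x i ∉ F ∧ G.Adj (x i) (y i) ∧ G.Adj (x i) (y' i)) ∧
      ∀ i < s, ∀ j < s, x i = x j → i = j := by
  obtain ⟨hXY, hX, hY, hmX, hmY, huv, huY, hvY, hdu, hdv⟩ := hC
  have hnR : (1000 : ℝ) ≤ n := by exact_mod_cast hn
  set t : Fin s → Finset (Fin n) := fun i =>
    X.filter fun x => x ∉ F ∧ G.Adj x (y i) ∧ G.Adj x (y' i) with ht
  have hcard : ∀ i : Fin s, s ≤ #(t i) := by
    intro i
    have h1 : X ⊆ t i ∪ (F ∪ ((X.filter fun x => ¬ G.Adj x (y i)) ∪
        (X.filter fun x => ¬ G.Adj x (y' i)))) := by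
      intro x hx
      by_cases h1 : x ∈ F
      · simp [h1]
      · by_cases h2 : G.Adj x (y i)
        · by_cases h3 : G.Adj x (y' i)
          · simp [ht, h1, h2, h3, hx]
          · simp [h3, hx]
        · simp [h2, hx]
    have h2 : #X ≤ #(t i) + (#F + (#(X.filter fun x => ¬ G.Adj x (y i)) +
        #(X.filter fun x => ¬ G.Adj x (y' i)))) := by
      refine (Finset.card_le_card h1).trans ((Finset.card_union_le _ _).trans ?_)
      refine Nat.add_le_add_left ((Finset.card_union_le _ _).trans ?_) _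
      exact Nat.add_le_add_left (Finset.card_union_le _ _) _
    have h3 : (#X : ℝ) ≤ #(t i) + (2 + (n / 100 + n / 100)) := by
      have h4 : (#X : ℝ) ≤ #(t i) + (#F + (#(X.filter fun x => ¬ G.Adj x (y i)) +
        #(X.filter fun x => ¬ G.Adj x (y' i)))) := by exact_mod_cast h2
      have h5 : (#F : ℝ) ≤ 2 := by exact_mod_cast hF
      have h6 := hmY (y i) (hy i i.2)
      have h7 := hmY (y' i) (hy' i i.2)
      linarith
    have h8 : (s : ℝ) ≤ #(t i) := by linarith
    exact_mod_cast h8
  obtain ⟨f, hf1, hf2⟩ := (Finset.all_card_le_biUnion_card_iff_exists_injective t).mp (by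
    intro S
    rcases S.eq_empty_or_nonempty with h | ⟨i, hi⟩
    · simp [h]
    · calc #S ≤ s := by simpa using Finset.card_le_univ S
        _ ≤ #(t i) := hcard i
        _ ≤ _ := Finset.card_le_card (Finset.subset_biUnion_of_mem t hi))
  refine ⟨fun i => if h : i < s then f ⟨i, h⟩ else u, ?_, ?_⟩
  · intro i hi
    have h := hf2 ⟨i, hi⟩
    simp only [ht, Finset.mem_filter] at h
    simp only [hi, dif_pos]
    exact h
  · intro i hi j hj hij
    simp only [hi, hj, dif_pos] at hij
    have := hf1 hij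
    simpa using this

/-- distinct elements of `Y` -/
lemma exists_y {n : ℕ} {G : SimpleGraph (Fin n)} {X Y : Finset (Fin n)} {u v : Fin n}
    (hn : 1000 ≤ n) (hC : Core G X Y u v) (s : ℕ) (hs : (s : ℝ) ≤ n / 5) :
    ∃ y : ℕ → Fin n, (∀ i < s, y i ∈ Y) ∧ ∀ i < s, ∀ j < s, y i = y j → i = j := by
  obtain ⟨hXY, hX, hY, hmX, hmY, huv, huY, hvY, hdu, hdv⟩ := hC
  have hnR : (1000 : ℝ) ≤ n := by exact_mod_cast hn
  have h1 : s ≤ #Y := by
    have : (s : ℝ) ≤ #Y := by linarith
    exact_mod_cast this
  obtain ⟨Z, hZ, hZc⟩ := Finset.exists_subset_card_eq h1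
  set e := Z.equivFinOfCardEq hZc with he
  refine ⟨fun i => if h : i < s then (e.symm ⟨i, h⟩ : Fin n) else u, ?_, ?_⟩
  · intro i hi
    simp only [hi, dif_pos]
    exact hZ (e.symm ⟨i, hi⟩).2
  · intro i hi j hj hij
    simp only [hi, hj, dif_pos] at hij
    have := e.symm.injective (Subtype.ext hij)
    simpa using this

/-- distinct elements of `Y` with prescribed neighbours at the ends -/
lemma exists_y2 {n : ℕ} {G : SimpleGraph (Fin n)} {X Y : Finset (Fin n)} {u v : Fin n}
    (hn : 1000 ≤ n) (hC : Core G X Y u v) (s : ℕ) (hs1 : 1 ≤ s) (hs : (s : ℝ) ≤ n / 5) :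
    ∃ y : ℕ → Fin n, (∀ i < s + 1, y i ∈ Y) ∧ G.Adj v (y 0) ∧ G.Adj u (y s) ∧
      ∀ i < s + 1, ∀ j < s + 1, y i = y j → i = j := by
  obtain ⟨hXY, hX, hY, hmX, hmY, huv, huY, hvY, hdu, hdv⟩ := hC
  have hnR : (1000 : ℝ) ≤ n := by exact_mod_cast hn
  have h1 : s + 1 ≤ #Y := by
    have : ((s + 1 : ℕ) : ℝ) ≤ #Y := by push_cast; linarith
    exact_mod_cast this
  have hdu2 : 2 ≤ #(Y.filter fun w => G.Adj u w) := by
    have : ((2 : ℕ) : ℝ) ≤ (nb G u Y : ℝ) := by push_cast; linarith
    exact_mod_cast this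
  have hdv2 : 2 ≤ #(Y.filter fun w => G.Adj v w) := by
    have : ((2 : ℕ) : ℝ) ≤ (nb G v Y : ℝ) := by push_cast; linarith
    exact_mod_cast this
  set t : Fin (s + 1) → Finset (Fin n) := fun i =>
    if i = 0 then Y.filter (fun w => G.Adj v w) else
      if i = Fin.last s then Y.filter (fun w => G.Adj u w) else Y with ht
  have htY : ∀ i, t i ⊆ Y := by
    intro i
    simp only [ht]
    split_ifs
    · exact Finset.filter_subset _ _
    · exact Finset.filter_subset _ _
    · exact subset_rfl
  have ht2 : ∀ i, 2 ≤ #(t i) := by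
    intro i
    simp only [ht]
    split_ifs
    · exact hdv2
    · exact hdu2
    · omega
  have hlast : Fin.last s ≠ 0 := by
    intro h
    have := congrArg Fin.val h
    simp at this
    omega
  obtain ⟨f, hf1, hf2⟩ := (Finset.all_card_le_biUnion_card_iff_exists_injective t).mp (by
    intro S
    by_cases h : ∃ i ∈ S, i ≠ 0 ∧ i ≠ Fin.last s
    · obtain ⟨i, hi, h0, hl⟩ := h
      calc #S ≤ s + 1 := by simpa using Finset.card_le_univ S
        _ ≤ #Y := h1
        _ = #(t i) := by simp [ht, h0, hl]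
        _ ≤ _ := Finset.card_le_card (Finset.subset_biUnion_of_mem t hi)
    · push Not at h
      rcases S.eq_empty_or_nonempty with h' | ⟨i, hi⟩
      · simp [h']
      · have hS : S ⊆ {0, Fin.last s} := by
          intro j hj
          by_cases hj0 : j = 0
          · simp [hj0]
          · simp [h j hj hj0]
        calc #S ≤ #({0, Fin.last s} : Finset (Fin (s + 1))) := Finset.card_le_card hS
          _ ≤ 2 := Finset.card_le_two
          _ ≤ #(t i) := ht2 i
          _ ≤ _ := Finset.card_le_card (Finset.subset_biUnion_of_mem t hi))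
  refine ⟨fun i => if h : i < s + 1 then f ⟨i, h⟩ else u, ?_, ?_, ?_, ?_⟩
  · intro i hi
    simp only [hi, dif_pos]
    exact htY _ (hf2 ⟨i, hi⟩)
  · have h := hf2 0
    simp only [ht, if_pos, Finset.mem_filter] at h
    simpa using h.2
  · have h := hf2 (Fin.last s)
    simp only [ht, if_neg hlast, if_pos, Finset.mem_filter] at h
    simp only [Nat.lt_succ_self, dif_pos]
    exact h.2
  · intro i hi j hj hij
    simp only [hi, hj, dif_pos] at hij
    have := hf1 hij
    simpa using this

/-- **NB6.** -/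
theorem nb6 : S_NB6 := by
  intro n G X Y u v hn hC ℓ hℓ hℓn
  have hC' := hC
  obtain ⟨hXY, hX, hY, hmX, hmY, huv, huY, hvY, hdu, hdv⟩ := hC'
  have hXYne : ∀ x ∈ X, ∀ y ∈ Y, x ≠ y := fun x hx y hy h =>
    Finset.disjoint_left.mp hXY hx (h ▸ hy)
  rcases Nat.even_or_odd' ℓ with ⟨t, rfl | hodd⟩
  · -- even
    have ht : (t : ℝ) ≤ n / 5 := by
      push_cast at hℓn
      linarith
    obtain ⟨y, hy1, hy2⟩ := exists_y hn hC t ht
    have ht0 : 0 < t := by omega
    obtain ⟨x, hx1, hx2⟩ := exists_x hn hC ∅ (by simp) t ht y (fun i => y ((i + 1) % t)) hy1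
      (fun i _ => hy1 _ (Nat.mod_lt _ ht0))
    refine ⟨fun j => if j % 2 = 0 then y (j / 2) else x (j / 2), ?_, ?_, ?_⟩
    · intro i hi j hj hij
      rcases Nat.mod_two_eq_zero_or_one i with hi2 | hi2 <;>
      rcases Nat.mod_two_eq_zero_or_one j with hj2 | hj2
      · simp only [hi2, hj2, if_pos] at hij
        have := hy2 _ (by omega) _ (by omega) hij
        omega
      · simp only [hi2, hj2, if_pos, one_ne_zero, if_false] at hij
        exact absurd hij.symm (hXYne _ (hx1 _ (by omega)).1 _ (hy1 _ (by omega)))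
      · simp only [hi2, hj2, if_pos, one_ne_zero, if_false] at hij
        exact absurd hij (hXYne _ (hx1 _ (by omega)).1 _ (hy1 _ (by omega)))
      · simp only [hi2, hj2, one_ne_zero, if_false] at hij
        have := hx2 _ (by omega) _ (by omega) hij
        omega
    · intro i hi
      rcases Nat.mod_two_eq_zero_or_one i with hi2 | hi2
      · have h1 : (i + 1) % 2 = 1 := by omega
        have h2 : (i + 1) / 2 = i / 2 := by omega
        simp only [hi2, h1, h2, if_pos, one_ne_zero, if_false]
        exact (hx1 (i / 2) (by omega)).2.2.1.symm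
      · have h1 : (i + 1) % 2 = 0 := by omega
        have h2 : (i + 1) / 2 = i / 2 + 1 := by omega
        simp only [hi2, h1, h2, if_pos, one_ne_zero, if_false]
        have h3 := (hx1 (i / 2) (by omega)).2.2.2
        rwa [Nat.mod_eq_of_lt (by omega)] at h3
    · have h1 : (2 * t - 1) % 2 = 1 := by omega
      have h2 : (2 * t - 1) / 2 = t - 1 := by omega
      simp only [h1, h2, one_ne_zero, if_false, Nat.zero_mod, if_pos, Nat.zero_div]
      have h3 := (hx1 (t - 1) (by omega)).2.2.2
      rwa [show t - 1 + 1 = t by omega, Nat.mod_self] at h3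
  · -- odd
    obtain ⟨s, hs⟩ : ∃ s, t = s + 1 := ⟨t - 1, by omega⟩
    subst hs
    have hs1 : 1 ≤ s := by omega
    have hsR : (s : ℝ) ≤ n / 5 := by
      rw [hodd] at hℓn
      push_cast at hℓn
      linarith
    obtain ⟨y, hy1, hy0, hys, hy2⟩ := exists_y2 hn hC s hs1 hsR
    obtain ⟨x, hx1, hx2⟩ := exists_x hn hC {u, v} Finset.card_le_two s hsR y (fun i => y (i + 1))
      (fun i hi => hy1 i (by omega)) (fun i hi => hy1 (i + 1) (by omega))
    have hxu : ∀ i < s, x i ≠ u := fun i hi h => (hx1 i hi).2.1 (by simp [h])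
    have hxv : ∀ i < s, x i ≠ v := fun i hi h => (hx1 i hi).2.1 (by simp [h])
    have hyu : ∀ i < s + 1, y i ≠ u := fun i hi h => huY (h ▸ hy1 i hi)
    have hyv : ∀ i < s + 1, y i ≠ v := fun i hi h => hvY (h ▸ hy1 i hi)
    have hxy : ∀ i < s, ∀ j < s + 1, x i ≠ y j := fun i hi j hj =>
      hXYne _ (hx1 i hi).1 _ (hy1 j hj)
    set φ : ℕ → Fin n := fun j => if j = 0 then u else if j = 1 then v else
      if j % 2 = 0 then y (j / 2 - 1) else x (j / 2 - 1) with hφ
    have hφ0 : φ 0 = u := by simp [hφ]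
    have hφ1 : φ 1 = v := by simp [hφ]
    have hφe : ∀ j, 2 ≤ j → j % 2 = 0 → φ j = y (j / 2 - 1) := by
      intro j h1 h2
      simp only [hφ]
      rw [if_neg (by omega), if_neg (by omega), if_pos h2]
    have hφo : ∀ j, 2 ≤ j → j % 2 = 1 → φ j = x (j / 2 - 1) := by
      intro j h1 h2
      simp only [hφ]
      rw [if_neg (by omega), if_neg (by omega), if_neg (by omega)]
    have huvne : u ≠ v := huv.ne
    refine ⟨φ, ?_, ?_, ?_⟩
    · have key : ∀ i j, i < ℓ → j < ℓ → i < j → φ i ≠ φ j := by
        intro i j hi hj hij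
        rcases Nat.lt_or_ge i 2 with hi' | hi'
        · have hi'' : i = 0 ∨ i = 1 := by omega
          rcases Nat.lt_or_ge j 2 with hj' | hj'
          · have h1 : i = 0 := by omega
            have h2 : j = 1 := by omega
            rw [h1, h2, hφ0, hφ1]
            exact huvne
          · rcases Nat.mod_two_eq_zero_or_one j with hj2 | hj2
            · rw [hφe j hj' hj2]
              rcases hi'' with rfl | rfl
              · rw [hφ0]; exact (hyu _ (by omega)).symm
              · rw [hφ1]; exact (hyv _ (by omega)).symm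
            · rw [hφo j hj' hj2]
              rcases hi'' with rfl | rfl
              · rw [hφ0]; exact (hxu _ (by omega)).symm
              · rw [hφ1]; exact (hxv _ (by omega)).symm
        · have hj' : 2 ≤ j := by omega
          rcases Nat.mod_two_eq_zero_or_one i with hi2 | hi2 <;>
          rcases Nat.mod_two_eq_zero_or_one j with hj2 | hj2
          · rw [hφe i hi' hi2, hφe j hj' hj2]
            intro h
            have := hy2 _ (by omega) _ (by omega) h
            omega
          · rw [hφe i hi' hi2, hφo j hj' hj2]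
            exact (hxy _ (by omega) _ (by omega)).symm
          · rw [hφo i hi' hi2, hφe j hj' hj2]
            exact (hxy _ (by omega) _ (by omega))
          · rw [hφo i hi' hi2, hφo j hj' hj2]
            intro h
            have := hx2 _ (by omega) _ (by omega) h
            omega
      intro i hi j hj hij
      rcases Nat.lt_trichotomy i j with h | h | h
      · exact absurd hij (key i j hi hj h)
      · exact h
      · exact absurd hij.symm (key j i hj hi h)
    · intro i hi
      rcases Nat.lt_or_ge i 2 with hi' | hi'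
      · have hi'' : i = 0 ∨ i = 1 := by omega
        rcases hi'' with rfl | rfl
        · rw [hφ0, hφ1]; exact huv
        · rw [hφ1, hφe 2 le_rfl rfl]
          exact hy0
      · rcases Nat.mod_two_eq_zero_or_one i with hi2 | hi2
        · rw [hφe i hi' hi2, hφo (i + 1) (by omega) (by omega),
            show (i + 1) / 2 - 1 = i / 2 - 1 by omega]
          exact (hx1 _ (by omega)).2.2.1.symm
        · rw [hφo i hi' hi2, hφe (i + 1) (by omega) (by omega),
            show (i + 1) / 2 - 1 = i / 2 - 1 + 1 by omega]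
          exact (hx1 _ (by omega)).2.2.2
    · rw [hφ0, hφe (ℓ - 1) (by omega) (by omega), show (ℓ - 1) / 2 - 1 = s by omega]
      exact hys.symm

/-- **NB.** -/
theorem main : S_TRI → S_NB2 → S_NB3 → S_NB4 → S_NB5 → S_NB6 → S_CYC → S_NB := by
  intro hTRI hNB2 hNB3 hNB4 hNB5 hNB6 hCYC n hn G A hlam hA ℓ hℓ hℓn
  refine hCYC _ G ℓ hℓ ?_
  rcases Nat.lt_or_ge ℓ 4 with h3 | h4
  · have : ℓ = 3 := by omega
    subst this
    obtain ⟨a, b, c, hab, hbc, hac⟩ := hTRI n G hlam
    refine ⟨fun j => if j = 0 then a else if j = 1 then b else c, ?_, ?_, ?_⟩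
    · intro i hi j hj hij
      have hab' := hab.ne
      have hbc' := hbc.ne
      have hac' := hac.ne
      interval_cases i <;> interval_cases j <;> simp_all
    · intro i hi
      have : i = 0 ∨ i = 1 := by omega
      rcases this with rfl | rfl
      · simpa using hab
      · simpa using hbc
    · simpa using hac.symm
  · haveI : Nonempty (Fin n) := ⟨⟨0, by omega⟩⟩
    have hT := hNB4 n G A (by omega) hA
    obtain ⟨W, hTW, hW1, hW2⟩ := hNB2 n G _ (by omega) hT
      (fun t ht => (Finset.mem_filter.mp ht).2) hlam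
    obtain ⟨X, Y, u, v, hC⟩ := hNB5 n G A W (by omega) hA
      (hT.trans (by exact_mod_cast Finset.card_le_card hTW)) hW2 (by
        intro P Q hPQ hU
        by_contra hcon
        push Not at hcon
        have h := hNB3 (Fin n) G P Q hPQ hcon.1 hcon.2
        have hU' : (@Union.union (Finset (Fin n)) (@Finset.instUnion _ fun a b =>
            Classical.propDecidable (a = b)) P Q) = W := by
          rw [← hU]
          ext z
          simp
        rw [hU'] at h
        exact absurd hW1 (not_lt.mpr h))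
    exact hNB6 n G X Y u v hn hC ℓ h4 hℓn

end Pool.Agent.W540.CC.NB6
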